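import Pool.Agent.H52.PQD

set_option autoImplicit false

/-!
# Caro's question on cycles of perfect power length: graphs whose edges in no triangle form a
matching, and claw-free graphs

`OneBare G`: every vertex of `G` is incident with at most one edge that lies in no triangle.
`ClawFree G`: no vertex of `G` has three pairwise non-adjacent neighbours.
-/

namespace Pool.Agent.Results.MP_bb4f54_co.TriangleMatching

/-- At each vertex, at most one edge lies in no triangle. -/
def OneBare {V : Type} (G : SimpleGraph V) : Prop :=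
  ∀ v a b : V, G.Adj v a → G.Adj v b → (∀ x, ¬ (G.Adj x v ∧ G.Adj x a)) →
    (∀ x, ¬ (G.Adj x v ∧ G.Adj x b)) → a = b

/-- No vertex has three pairwise non-adjacent neighbours. -/
def ClawFree {V : Type} (G : SimpleGraph V) : Prop :=
  ∀ v a b c : V, G.Adj v a → G.Adj v b → G.Adj v c → a ≠ b → a ≠ c → b ≠ c →
    G.Adj a b ∨ G.Adj a c ∨ G.Adj b c

theorem third {V : Type} [Fintype V] [DecidableEq V] (G : SimpleGraph V) [DecidableRel G.Adj]
    (h3 : 3 ≤ G.minDegree) (v a b : V) : ∃ c, G.Adj v c ∧ c ≠ a ∧ c ≠ b := by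
  have h1 : 3 ≤ (G.neighborFinset v).card := by
    rw [G.card_neighborFinset_eq_degree]
    exact h3.trans (G.minDegree_le_degree v)
  have h2 : ({a, b} : Finset V).card ≤ 2 := Finset.card_le_two
  obtain ⟨c, hc1, hc2⟩ := Finset.exists_mem_notMem_of_card_lt_card
    (show ({a, b} : Finset V).card < (G.neighborFinset v).card by omega)
  rw [SimpleGraph.mem_neighborFinset] at hc1
  simp only [Finset.mem_insert, Finset.mem_singleton, not_or] at hc2
  exact ⟨c, hc1, hc2.1, hc2.2⟩

/-- Claw-free graphs of minimum degree at least 3 satisfy `OneBare`. -/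
theorem oneBare_of_clawFree {V : Type} [Fintype V] [DecidableEq V] (G : SimpleGraph V)
    [DecidableRel G.Adj] (h3 : 3 ≤ G.minDegree) (hc : ClawFree G) : OneBare G := by
  intro v a b ha hb ha' hb'
  by_contra hab
  obtain ⟨c, hc1, hca, hcb⟩ := third G h3 v a b
  rcases hc v a b c ha hb hc1 hab hca.symm hcb.symm with h | h | h
  · exact ha' b ⟨hb.symm, h.symm⟩
  · exact ha' c ⟨hc1.symm, h.symm⟩
  · exact hb' c ⟨hc1.symm, h.symm⟩

theorem loc_of {V : Type} [Fintype V] [DecidableEq V] (G : SimpleGraph V) [DecidableRel G.Adj]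
    (h3 : 3 ≤ G.minDegree) (hc : OneBare G)
    (h4 : ¬ ∃ (v : V) (p : G.Walk v v), p.IsCycle ∧ p.length = 4) :
    Pool.Agent.H52.PQ.Loc G := by
  refine ⟨?_, fun v a b => third G h3 v a b, ?_⟩
  · intro a b c d hab hbc hcd hda hac hbd
    apply h4
    refine ⟨a, SimpleGraph.Walk.cons hab (SimpleGraph.Walk.cons hbc (SimpleGraph.Walk.cons hcd
      (SimpleGraph.Walk.cons hda SimpleGraph.Walk.nil))), ?_, rfl⟩
    have h1 := Pool.Agent.H52.PQ.close_cycle (SimpleGraph.Walk.cons hbc
      (SimpleGraph.Walk.cons hcd (SimpleGraph.Walk.cons hda SimpleGraph.Walk.nil))) ?_ (by simp) hab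
    · exact h1
    · simp only [SimpleGraph.Walk.cons_isPath_iff, SimpleGraph.Walk.support_cons,
        SimpleGraph.Walk.support_nil, List.mem_cons, List.not_mem_nil, or_false]
      refine ⟨⟨⟨SimpleGraph.Walk.IsPath.nil, hda.ne⟩, ?_⟩, ?_⟩
      · push Not; exact ⟨hcd.ne, hac.symm⟩
      · push Not; exact ⟨hbc.ne, hbd, hab.ne'⟩
  · intro v a b ha hb hab
    by_contra hcon
    rw [not_or] at hcon
    obtain ⟨h5, h6⟩ := hcon
    exact hab (hc v a b ha hb (fun x hx => h5 ⟨x, hx⟩) (fun x hx => h6 ⟨x, hx⟩))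

/-- Let `G` be a finite graph of minimum degree at least `3` which is claw-free, or in which every
vertex is incident with at most one edge that lies in no triangle. Then `G` has a cycle whose
length is a non-trivial power `a ^ k`, `a, k ≥ 2`; more precisely, the length of this cycle is `8`
or a square. -/
theorem result (V : Type) [Fintype V] [DecidableEq V] (G : SimpleGraph V) [DecidableRel G.Adj]
    (h3 : 3 ≤ G.minDegree) (h : ClawFree G ∨ OneBare G) :
    ∃ (v : V) (p : G.Walk v v), p.IsCycle ∧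
      ∃ a k : ℕ, 2 ≤ a ∧ 2 ≤ k ∧ p.length = a ^ k ∧ (k = 2 ∨ a ^ k = 8) := by
  have hc : OneBare G := by
    rcases h with h | h
    · exact oneBare_of_clawFree G h3 h
    · exact h
  have hne : Nonempty V := by
    by_contra hcon
    rw [not_nonempty_iff] at hcon
    have : G.minDegree = 0 := by
      simp [SimpleGraph.minDegree]
    omega
  by_cases h4 : ∃ (v : V) (p : G.Walk v v), p.IsCycle ∧ p.length = 4
  · obtain ⟨v, p, hp1, hp2⟩ := h4
    exact ⟨v, p, hp1, 2, 2, le_refl _, le_refl _, by rw [hp2]; norm_num, Or.inl rfl⟩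
  · have hl := loc_of G h3 hc h4
    obtain ⟨v, p, hp1, hp2⟩ := Pool.Agent.H52.PQ.main hl
    rcases hp2 with hp2 | ⟨a, ha, hp2⟩
    · exact ⟨v, p, hp1, 2, 3, le_refl _, by norm_num, by rw [hp2]; norm_num, Or.inr (by norm_num)⟩
    · exact ⟨v, p, hp1, a, 2, ha, le_refl _, hp2, Or.inl rfl⟩

end Pool.Agent.Results.MP_bb4f54_co.TriangleMatching
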